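import Mathlib
import Pool.Agent.H635F.Fin

set_option autoImplicit false

open MeasureTheory Filter Topology

namespace Pool.Agent.Results.MP_e27144_an.Dichotomy

/-- `μ` is invariant under multiplication by `2` and by `3`. -/
def Invariant (μ : Measure UnitAddCircle) : Prop :=
  MeasurePreserving (fun x : UnitAddCircle => 2 • x) μ μ ∧
    MeasurePreserving (fun x : UnitAddCircle => 3 • x) μ μ

/-- The compact space of invariant probability measures, with the weak topology. -/
abbrev InvariantMeasures : Type :=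
  {μ : ProbabilityMeasure UnitAddCircle // Invariant (μ : Measure UnitAddCircle)}

/-- The counterexamples to Furstenberg's conjecture: the atomless invariant probability measures
which are not Lebesgue measure. -/
def Counterexamples : Set InvariantMeasures :=
  {μ | (∀ x, (μ.1 : Measure UnitAddCircle) {x} = 0) ∧ (μ.1 : Measure UnitAddCircle) ≠ volume}

/-- Convolution powers of a measure. -/
noncomputable def convPow (ρ : Measure UnitAddCircle) : ℕ → Measure UnitAddCircle
  | 0 => Measure.dirac 0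
  | n + 1 => Measure.conv (convPow ρ n) ρ

lemma coe_cpow (ρ : Pool.Agent.H635F.PM) (n : ℕ) :
    (Pool.Agent.H635F.cpow ρ n : Measure UnitAddCircle) = convPow ρ n := by
  induction n with
  | zero => rfl
  | succ n ih =>
    change (Pool.Agent.H635F.cv (Pool.Agent.H635F.cpow ρ n) ρ : Measure UnitAddCircle) =
      Measure.conv (convPow ρ n) ρ
    rw [Pool.Agent.H635F.coe_cv, ih]

lemma real_iff (P : Pool.Agent.H635F.PM → Prop) :
    (∀ ε : ℝ, 0 < ε → ∃ ν : InvariantMeasures, P ν.1 ∧
      ∫ x, ‖x‖ ∂(ν.1 : Measure UnitAddCircle) ≤ ε) ↔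
    ∀ c : ENNReal, c ≠ 0 → ∃ ν : Pool.Agent.H635F.PM, Pool.Agent.H635F.Inv ν ∧ P ν ∧
      Pool.Agent.H635F.J ν ≤ c := by
  constructor
  · intro H c hc
    have hc1 : min c 1 ≠ 0 := by
      rw [← pos_iff_ne_zero, lt_min_iff]
      exact ⟨pos_iff_ne_zero.2 hc, one_pos⟩
    have hct : min c 1 ≠ ⊤ := ne_top_of_le_ne_top ENNReal.one_ne_top (min_le_right _ _)
    obtain ⟨ν, h1, h2⟩ := H (min c 1).toReal (ENNReal.toReal_pos hc1 hct)
    refine ⟨ν.1, (Pool.Agent.H635F.inv_iff _).2 ν.2, h1, ?_⟩
    rw [Pool.Agent.H635F.integral_norm_eq] at h2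
    exact ((ENNReal.toReal_le_toReal (Pool.Agent.H635F.J_ne_top _) hct).1 h2).trans
      (min_le_left _ _)
  · intro H ε hε
    obtain ⟨ν, h0, h1, h2⟩ := H (ENNReal.ofReal ε) (by simpa using hε)
    refine ⟨⟨ν, (Pool.Agent.H635F.inv_iff _).1 h0⟩, h1, ?_⟩
    rw [Pool.Agent.H635F.integral_norm_eq]
    exact (ENNReal.toReal_mono ENNReal.ofReal_ne_top h2).trans_eq (ENNReal.toReal_ofReal hε.le)

/-- **A dichotomy for `×2, ×3`-invariant measures: either the point mass at `0` is isolated, or a
generic invariant measure is a counterexample to Furstenberg's conjecture.**  The following are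
equivalent:
(1) there are invariant probability measures `ν` with `ν {0} = 0` and arbitrarily small mean
distance to `0`;
(2) there are such measures `ν` without atoms;
(3) the counterexamples to Furstenberg's conjecture are dense in the compact space of invariant
probability measures;
(4) the counterexamples are residual in this space;
(5) there is a counterexample `μ` which is infinitely divisible in the convolution semigroup of
invariant probability measures: for every `m ≥ 1` it is the `m`-th convolution power of an invariant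
probability measure. -/
theorem result : List.TFAE [
    (∀ ε : ℝ, 0 < ε → ∃ ν : InvariantMeasures, (ν.1 : Measure UnitAddCircle) {0} = 0 ∧
      ∫ x, ‖x‖ ∂(ν.1 : Measure UnitAddCircle) ≤ ε),
    (∀ ε : ℝ, 0 < ε → ∃ ν : InvariantMeasures, (∀ x, (ν.1 : Measure UnitAddCircle) {x} = 0) ∧
      ∫ x, ‖x‖ ∂(ν.1 : Measure UnitAddCircle) ≤ ε),
    Dense Counterexamples,
    Counterexamples ∈ residual InvariantMeasures,
    ∃ μ ∈ Counterexamples, ∀ m : ℕ, 1 ≤ m → ∃ ρ : InvariantMeasures,
      convPow (ρ.1 : Measure UnitAddCircle) m = (μ.1 : Measure UnitAddCircle)] := by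
  have key := Pool.Agent.H635F.dichotomy
  have h5 : (∃ μ : Pool.Agent.H635F.PM, Pool.Agent.H635F.Inv μ ∧
      (∀ x, (μ : Measure UnitAddCircle) {x} = 0) ∧
      (μ : Measure UnitAddCircle) ≠ volume ∧ Pool.Agent.H635F.Divis μ) ↔
      ∃ μ ∈ Counterexamples, ∀ m : ℕ, 1 ≤ m → ∃ ρ : InvariantMeasures,
        convPow (ρ.1 : Measure UnitAddCircle) m = (μ.1 : Measure UnitAddCircle) := by
    constructor
    · rintro ⟨μ, h0, h1, h2, h3⟩
      refine ⟨⟨μ, (Pool.Agent.H635F.inv_iff _).1 h0⟩, ⟨h1, h2⟩, fun m hm => ?_⟩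
      obtain ⟨ρ, hρ, hpow⟩ := h3 m hm
      exact ⟨⟨ρ, (Pool.Agent.H635F.inv_iff _).1 hρ⟩, by
        rw [← coe_cpow, hpow]⟩
    · rintro ⟨μ, ⟨h1, h2⟩, h3⟩
      refine ⟨μ.1, (Pool.Agent.H635F.inv_iff _).2 μ.2, h1, h2, fun m hm => ?_⟩
      obtain ⟨ρ, hρ⟩ := h3 m hm
      refine ⟨ρ.1, (Pool.Agent.H635F.inv_iff _).2 ρ.2, ?_⟩
      apply ProbabilityMeasure.toMeasure_injective
      rw [coe_cpow, hρ]
  rw [real_iff (fun ν => (ν : Measure UnitAddCircle) {0} = 0),
    real_iff (fun ν => ∀ x, (ν : Measure UnitAddCircle) {x} = 0), ← h5]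
  exact key

end Pool.Agent.Results.MP_e27144_an.Dichotomy
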