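import Mathlib
import Pool.Agent.H635F.Per2

set_option autoImplicit false

open MeasureTheory Filter Topology

namespace Pool.Agent.Results.MP_e27144_an.PeriodicDichotomy

/-- `μ` is invariant under multiplication by `2` and by `3`. -/
def Invariant (μ : Measure UnitAddCircle) : Prop :=
  MeasurePreserving (fun x : UnitAddCircle => 2 • x) μ μ ∧
    MeasurePreserving (fun x : UnitAddCircle => 3 • x) μ μ

/-- The invariant probability measures with finite support. -/
def FinitelySupported : Set (ProbabilityMeasure UnitAddCircle) :=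
  {ν | Invariant (ν : Measure UnitAddCircle) ∧
    ∃ S : Set UnitAddCircle, S.Finite ∧ (ν : Measure UnitAddCircle) Sᶜ = 0}

/-- The weak closure of the finitely supported invariant probability measures. -/
abbrev Approximable : Type :=
  {μ : ProbabilityMeasure UnitAddCircle // μ ∈ closure FinitelySupported}

/-- The approximable counterexamples to Furstenberg's conjecture. -/
def Counterexamples : Set Approximable :=
  {μ | (∀ x, (μ.1 : Measure UnitAddCircle) {x} = 0) ∧ (μ.1 : Measure UnitAddCircle) ≠ volume}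

/-- `x` is periodic under both maps: `2 ^ N x = x` and `3 ^ M x = x` with `N, M ≥ 1`. -/
def Periodic (x : UnitAddCircle) (N M : ℕ) : Prop :=
  1 ≤ N ∧ 1 ≤ M ∧ (2 ^ N) • x = x ∧ (3 ^ M) • x = x

/-- The average of `f` over the (finite) orbit of a periodic point `x`. -/
noncomputable def orbitAverage (x : UnitAddCircle) (N M : ℕ) (f : UnitAddCircle → ℝ) : ℝ :=
  ((N : ℝ) * M)⁻¹ * ∑ i ∈ Finset.range N, ∑ j ∈ Finset.range M, f ((2 ^ i * 3 ^ j) • x)

/-- `ν` is the uniform probability measure on the orbit of a periodic point. -/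
def IsOrbitMeasure (ν : Measure UnitAddCircle) : Prop :=
  ∃ (x : UnitAddCircle) (N M : ℕ), Periodic x N M ∧ IsProbabilityMeasure ν ∧
    ∀ f : UnitAddCircle → ℝ, Continuous f → ∫ y, f y ∂ν = orbitAverage x N M f

/-- The partial convolutions `ν 0 ∗ ⋯ ∗ ν (n - 1)` of a sequence of measures. -/
noncomputable def partialConv (ν : ℕ → Measure UnitAddCircle) : ℕ → Measure UnitAddCircle
  | 0 => Measure.dirac 0
  | n + 1 => Measure.conv (partialConv ν n) (ν n)

/-- Weak convergence of a sequence of measures on the circle. -/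
def WeakLimit (σ : ℕ → Measure UnitAddCircle) (μ : Measure UnitAddCircle) : Prop :=
  ∀ f : UnitAddCircle → ℝ, Continuous f →
    Tendsto (fun n => ∫ y, f y ∂(σ n)) atTop (𝓝 (∫ y, f y ∂μ))

lemma coe_pc (s : ℕ → Pool.Agent.H635F.PM) (ν : ℕ → Measure UnitAddCircle)
    (h : ∀ n, (s n : Measure UnitAddCircle) = ν n) (n : ℕ) :
    (Pool.Agent.H635F.pc s n : Measure UnitAddCircle) = partialConv ν n := by
  induction n with
  | zero => rfl
  | succ n ih =>
    change (Pool.Agent.H635F.cv (Pool.Agent.H635F.pc s n) (s n) : Measure UnitAddCircle) =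
      Measure.conv (partialConv ν n) (ν n)
    rw [Pool.Agent.H635F.coe_cv, ih, h n]

lemma weak_iff (s : ℕ → Pool.Agent.H635F.PM) (μ : Pool.Agent.H635F.PM) :
    Tendsto s atTop (𝓝 μ) ↔ WeakLimit (fun n => (s n : Measure UnitAddCircle)) μ := by
  rw [ProbabilityMeasure.tendsto_iff_forall_integral_tendsto]
  constructor
  · intro h f hf
    exact h (BoundedContinuousFunction.mkOfCompact ⟨f, hf⟩)
  · intro h f
    exact h f f.continuous

lemma isOrb_iff (ν : Pool.Agent.H635F.PM) : Pool.Agent.H635F.IsOrb ν ↔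
    IsOrbitMeasure (ν : Measure UnitAddCircle) := by
  constructor
  · rintro ⟨x, N, M, hN, hM, h2, h3, rfl⟩
    exact ⟨x, N, M, ⟨hN, hM, h2, h3⟩, inferInstance, fun f hf =>
      Pool.Agent.H635F.orb_integral x N M hN hM f hf⟩
  · rintro ⟨x, N, M, ⟨hN, hM, h2, h3⟩, hp, h⟩
    refine ⟨x, N, M, hN, hM, h2, h3, ?_⟩
    apply ProbabilityMeasure.toMeasure_injective
    refine ext_of_forall_integral_eq_of_IsFiniteMeasure fun f => ?_
    rw [h f f.continuous, Pool.Agent.H635F.orb_integral x N M hN hM f f.continuous]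
    rfl

/-- **Periodic orbits and approximable counterexamples to Furstenberg's conjecture.**  Let `A` be
the weak closure of the finitely supported `×2, ×3`-invariant probability measures on `R/Z` (it
contains Lebesgue measure, and whether it contains every invariant measure is open).  The following
are equivalent:
(1) there are periodic points `x ≠ 0` whose orbits have arbitrarily small mean distance to `0`;
(2) the atomless measures other than Lebesgue measure are dense in `A`;
(3) the atomless measures other than Lebesgue measure are residual in `A`;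
(4) some convergent infinite convolution of uniform measures on periodic orbits is atomless,
invariant and not Lebesgue measure;
(5) some weak limit of a subsequence of the partial convolutions of a sequence of uniform measures on
periodic orbits is atomless and not Lebesgue measure. -/
theorem result : List.TFAE [
    (∀ ε : ℝ, 0 < ε → ∃ (x : UnitAddCircle) (N M : ℕ), Periodic x N M ∧ x ≠ 0 ∧
      orbitAverage x N M (fun y => ‖y‖) ≤ ε),
    Dense Counterexamples,
    Counterexamples ∈ residual Approximable,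
    (∃ ν : ℕ → Measure UnitAddCircle, (∀ n, IsOrbitMeasure (ν n)) ∧
      ∃ μ : Measure UnitAddCircle, IsProbabilityMeasure μ ∧ WeakLimit (partialConv ν) μ ∧
        (∀ x, μ {x} = 0) ∧ Invariant μ ∧ μ ≠ volume),
    (∃ ν : ℕ → Measure UnitAddCircle, (∀ n, IsOrbitMeasure (ν n)) ∧ ∃ φ : ℕ → ℕ, StrictMono φ ∧
      ∃ μ : Measure UnitAddCircle, IsProbabilityMeasure μ ∧
        WeakLimit (fun n => partialConv ν (φ n)) μ ∧ (∀ x, μ {x} = 0) ∧ μ ≠ volume)] := by
  have key := Pool.Agent.H635F.periodic_dichotomy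
  have k4 : Pool.Agent.H635F.NoGapOrb ↔ Pool.Agent.H635F.ExConv := key.out 0 3
  have k5 : Pool.Agent.H635F.NoGapOrb ↔ Pool.Agent.H635F.ExConv2 := key.out 0 4
  have h1 : Pool.Agent.H635F.NoGapOrb ↔ (∀ ε : ℝ, 0 < ε → ∃ (x : UnitAddCircle) (N M : ℕ),
      Periodic x N M ∧ x ≠ 0 ∧ orbitAverage x N M (fun y => ‖y‖) ≤ ε) := by
    constructor
    · intro H ε hε
      obtain ⟨x, N, M, hN, hM, h2, h3, hx, h⟩ := H ε hε
      exact ⟨x, N, M, ⟨hN, hM, h2, h3⟩, hx, h⟩
    · intro H ε hε
      obtain ⟨x, N, M, ⟨hN, hM, h2, h3⟩, hx, h⟩ := H ε hε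
      exact ⟨x, N, M, hN, hM, h2, h3, hx, h⟩
  rw [← h1]
  tfae_have 1 ↔ 2 := key.out 0 1
  tfae_have 1 ↔ 3 := key.out 0 2
  tfae_have 1 → 4 := by
    intro H
    obtain ⟨s, hs, μ, hμ, hat, hinv, hne⟩ := k4.1 H
    refine ⟨fun n => (s n : Measure UnitAddCircle), fun n => (isOrb_iff _).1 (hs n), μ,
      inferInstance, ?_, hat, (Pool.Agent.H635F.inv_iff μ).1 hinv, hne⟩
    have h1 := (weak_iff _ _).1 hμ
    have h2 : (fun n => (Pool.Agent.H635F.pc s n : Measure UnitAddCircle)) =
        partialConv (fun n => (s n : Measure UnitAddCircle)) :=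
      funext fun n => coe_pc s _ (fun _ => rfl) n
    rwa [h2] at h1
  tfae_have 4 → 5 := fun ⟨ν, hν, μ, hp, hμ, hat, _, hne⟩ =>
    ⟨ν, hν, id, strictMono_id, μ, hp, hμ, hat, hne⟩
  tfae_have 5 → 1 := by
    rintro ⟨ν, hν, φ, hφ, μ, hp, hμ, hat, hne⟩
    let s : ℕ → Pool.Agent.H635F.PM :=
      fun n => ⟨ν n, (hν n).choose_spec.choose_spec.choose_spec.2.1⟩
    have hs : ∀ n, Pool.Agent.H635F.IsOrb (s n) := fun n => (isOrb_iff _).2 (hν n)
    refine k5.2 ⟨s, hs, ⟨μ, hp⟩, ?_, hat, hne⟩
    have h1 : Tendsto (fun n => Pool.Agent.H635F.pc s (φ n)) atTop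
        (𝓝 (⟨μ, hp⟩ : Pool.Agent.H635F.PM)) := by
      refine (weak_iff _ _).2 ?_
      have h2 : (fun n => (Pool.Agent.H635F.pc s (φ n) : Measure UnitAddCircle)) =
          fun n => partialConv ν (φ n) :=
        funext fun n => coe_pc s ν (fun _ => rfl) (φ n)
      rw [h2]
      exact hμ
    exact MapClusterPt.of_comp hφ.tendsto_atTop h1.mapClusterPt
  tfae_finish

end Pool.Agent.Results.MP_e27144_an.PeriodicDichotomy
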