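import Mathlib
import Pool.Agent.H847R3.SuppC
import Pool.Agent.H847R3.SuppD

/-!
Quantitative support of measures invariant under multiplication by `p` and `q`, and the
number of visits of orbits to an open set.
-/

set_option autoImplicit false

open Set Filter Topology MeasureTheory

namespace Pool.Agent.Results.MP_e27144_an.QuantitativeSupport

theorem result (p q : ℕ) (hp : 2 ≤ p) (hq : 2 ≤ q)
    (hpq : Irrational (Real.log p / Real.log q)) :
    ∃ κ : ℝ, 0 < κ ∧ κ < 1 ∧ (Nat.Coprime p q → κ = 2 - Real.log 3 / Real.log 2) ∧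
      ∀ U : Set UnitAddCircle, IsOpen U → U.Nonempty →
        {x : UnitAddCircle | ∀ i j : ℕ, (p ^ i * q ^ j) • x ∉ U}.Finite ∧
        ∃ C : ℝ, 0 < C ∧
          (∀ μ : Measure UnitAddCircle, IsProbabilityMeasure μ →
            MeasurePreserving (fun x : UnitAddCircle => p • x) μ μ →
            MeasurePreserving (fun x : UnitAddCircle => q • x) μ μ →
            ∀ t : ℝ, 1 ≤ t →
              μ.real {x | ∀ k : UnitAddCircle, (∀ i j : ℕ, (p ^ i * q ^ j) • k ∉ U) →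
                Real.exp (-t) ≤ dist x k} ≤ C * t ^ κ * μ.real U) ∧
          (∀ N : ℕ, 2 ≤ N → Nat.Coprime N (p * q) → ∀ x : UnitAddCircle, N • x = 0 →
            (∃ i j : ℕ, (p ^ i * q ^ j) • x ∈ U) →
            ({y | ∃ i j : ℕ, y = (p ^ i * q ^ j) • x}.ncard : ℝ) ≤ C * Real.log N ^ κ *
              ({y | (∃ i j : ℕ, y = (p ^ i * q ^ j) • x) ∧ y ∈ U}.ncard : ℝ)) ∧
          (∀ x : ℝ, Irrational x → ∃ᶠ n : ℕ in atTop, (n : ℝ) ^ (2 - κ) ≤
            C * ({u : ℕ × ℕ | u.1 ≤ n ∧ u.2 ≤ n ∧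
              (p ^ u.1 * q ^ u.2) • (x : UnitAddCircle) ∈ U}.ncard : ℝ)) := by
  obtain ⟨s, hs1, hs2, hs3, hs⟩ := Pool.Agent.H847R3.XpXq.exists_gr hp hq hpq
  refine ⟨2 - s, by linarith, by linarith, fun h => by rw [hs3 h], fun U hU hne => ?_⟩
  have hκ : 0 < 2 - s := by linarith
  obtain ⟨C1, hC1, h1⟩ := Pool.Agent.H847R3.XpXq.support hp hq hpq hs2 hs hU hne
  obtain ⟨C2, hC2, h2⟩ := Pool.Agent.H847R3.XpXq.rational hp hq hpq hκ hU hne hC1 h1
  obtain ⟨c3, hc3, h3⟩ := Pool.Agent.H847R3.XpXq.pointwise_io hp hq hpq hs hU hne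
  refine ⟨Pool.Agent.H847R3.XpXq.KU_finite hp hq hpq hU hne, C1 + C2 + 1 / c3, by positivity,
    ?_, ?_, ?_⟩
  · intro μ hμ hμp hμq t ht
    refine (h1 μ hμ hμp hμq t ht).trans ?_
    have h0 : 0 ≤ μ.real U := measureReal_nonneg
    have ht0 : 0 ≤ t ^ (2 - s) := Real.rpow_nonneg (by linarith) _
    have h4 : C1 ≤ C1 + C2 + 1 / c3 := by
      have : 0 < 1 / c3 := by positivity
      linarith
    gcongr
  · intro N hN hco x hx hxU
    have hxK : x ∉ Pool.Agent.H847R3.XpXq.KU p q U := by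
      intro h
      obtain ⟨i, j, hij⟩ := hxU
      exact h i j hij
    refine (h2 N hN hco x hx hxK).trans ?_
    have hl : 0 ≤ Real.log N ^ (2 - s) :=
      Real.rpow_nonneg (Real.log_nonneg (by exact_mod_cast (by omega : 1 ≤ N))) _
    have h4 : C2 ≤ C1 + C2 + 1 / c3 := by
      have : 0 < 1 / c3 := by positivity
      linarith
    have e : (Pool.Agent.H847R3.XpXq.orb p q x ∩ U) =
        {y | (∃ i j : ℕ, y = (p ^ i * q ^ j) • x) ∧ y ∈ U} := rfl
    rw [e]
    gcongr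
  · intro x hx
    refine (h3 x hx).mono fun n hn => ?_
    have e : 2 - (2 - s) = s := by ring
    rw [e]
    have h5 : (n : ℝ) ^ s ≤ 1 / c3 *
        ((Pool.Agent.H847R3.XpXq.hits p q n U (x : UnitAddCircle)).ncard : ℝ) := by
      rw [one_div, ← div_eq_inv_mul, le_div_iff₀ hc3]
      linarith
    refine h5.trans ?_
    have h4 : 1 / c3 ≤ C1 + C2 + 1 / c3 := by linarith
    exact mul_le_mul_of_nonneg_right h4 (Nat.cast_nonneg _)
end Pool.Agent.Results.MP_e27144_an.QuantitativeSupport
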