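import Mathlib
import Pool.Agent.H635F.Class

set_option autoImplicit false

open MeasureTheory

/-- **Furstenberg's `×2, ×3` conjecture is equivalent to uniform positive proportion
equidistribution.**  Furstenberg's conjecture (every atomless probability measure on `R/Z` invariant
under `x ↦ 2 x` and `x ↦ 3 x` is Lebesgue measure) holds if and only if there is `c > 0` such that,
for every continuous `f ≥ 0` on `R/Z` and every `ε > 0`, there is `Q` with
`∫ f dν ≥ c ∫ f dλ - ε` for all probability measures `ν` invariant under `x ↦ 2 x` and `x ↦ 3 x`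
which give no mass to the (finitely many) points of order at most `Q`; this includes the uniform
measures on all finite orbits of points of order larger than `Q`. -/
theorem Pool.Agent.Results.MP_e27144_an.UniformDomination.result :
    (∀ μ : Measure UnitAddCircle, IsProbabilityMeasure μ → (∀ x, μ {x} = 0) →
        MeasurePreserving (fun x : UnitAddCircle => 2 • x) μ μ →
        MeasurePreserving (fun x : UnitAddCircle => 3 • x) μ μ → μ = volume) ↔
    ∃ c : ℝ, 0 < c ∧ ∀ f : UnitAddCircle → ℝ, Continuous f → (∀ x, 0 ≤ f x) →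
      ∀ ε : ℝ, 0 < ε → ∃ Q : ℕ, ∀ ν : Measure UnitAddCircle, IsProbabilityMeasure ν →
        MeasurePreserving (fun x : UnitAddCircle => 2 • x) ν ν →
        MeasurePreserving (fun x : UnitAddCircle => 3 • x) ν ν →
        ν {x | ∃ m : ℕ, 1 ≤ m ∧ m ≤ Q ∧ m • x = 0} = 0 →
          c * ∫ y, f y ∂(volume : Measure UnitAddCircle) - ε ≤ ∫ y, f y ∂ν := by
  constructor
  · intro H
    obtain ⟨c, hc, -, h⟩ := Pool.Agent.H635F.equi H
    refine ⟨c, hc, fun f hf h0 ε hε => ?_⟩
    obtain ⟨Q, hQ⟩ := h ⟨f, hf⟩ h0 ε hε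
    exact ⟨Q, fun ν hp h2 h3 htor =>
      hQ ⟨ν, hp⟩ ((Pool.Agent.H635F.inv_iff _).2 ⟨h2, h3⟩) htor⟩
  · rintro ⟨c, hc, h⟩
    refine Pool.Agent.H635F.Equi.furst ⟨c, hc, fun f h0 ε hε => ?_⟩
    obtain ⟨Q, hQ⟩ := h f f.continuous h0 ε hε
    exact ⟨Q, fun ν hinv htor =>
      hQ ν inferInstance ((Pool.Agent.H635F.inv_iff _).1 hinv).1
        ((Pool.Agent.H635F.inv_iff _).1 hinv).2 htor⟩
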